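import Pool.Agent.Helper53.KC.Goals

namespace Pool.Agent.Helper89.KC

open Pool.Agent.Helper53.KC

theorem finm : FinmStmt := by
  intro n
  have hf : Finite (Set (Fin n) × Set (Set (Fin n))) := inferInstance
  refine Finite.of_injective
    (fun M : Matroid (Fin n) => (M.E, {I : Set (Fin n) | M.Indep I})) ?_
  intro M N h
  simp only [Prod.mk.injEq] at h
  refine Matroid.ext_indep h.1 fun I _ => ?_
  have := Set.ext_iff.mp h.2 I
  exact this

end Pool.Agent.Helper89.KC
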